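import Pool.Agent.Helper98.Gn.AsD
import Pool.Agent.Helper98.Gn.Ind

/-! The genus of the giant component of a random graph on a surface near the second phase
transition: for every `g ≥ 1` and every `m = (1 + o(1)) n`, with high probability the giant
component of the uniform random simple graph on `n` labelled vertices with `m` edges that embeds
on the orientable surface of genus `g` does not embed on the surface of genus `g - 1`, and all
other components are planar. -/

namespace Pool.Agent.Results.MP_4329f8_pr.GenusOfGiant

open Filter Topology SimpleGraph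

/-- The reversal of the darts (oriented edges) of `G`. -/
def rev {V : Type*} (G : SimpleGraph V) : Equiv.Perm G.Dart :=
  Function.Involutive.toPerm SimpleGraph.Dart.symm SimpleGraph.Dart.symm_involutive

/-- A rotation system of `G`: a permutation of the darts of `G` whose cycles are exactly the sets
of all darts leaving a given vertex (that is, a cyclic order of the neighbours of each vertex). -/
def IsRotation {V : Type*} (G : SimpleGraph V) (σ : Equiv.Perm G.Dart) : Prop :=
  ∀ d e : G.Dart, σ.SameCycle d e ↔ d.fst = e.fst

/-- The number of faces of the embedding given by the rotation system `σ`: the number of orbits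
of `σ ∘ rev` on the darts, plus one for each isolated vertex (a component without darts has
exactly one face, which no dart sees). -/
noncomputable def faces {V : Type*} (G : SimpleGraph V) (σ : Equiv.Perm G.Dart) : ℕ :=
  Nat.card (Quotient (Equiv.Perm.SameCycle.setoid (σ * rev G))) + {v | ∀ w, ¬ G.Adj v w}.ncard

/-- `G` is embeddable on the orientable surface of genus `h`: it has a rotation system whose
total genus, the sum of the genera of the components, is at most `h`. By Euler's formula the
total genus `t` of a rotation system is given by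
`2 c - 2 t = v - e + f`, where `c`, `v`, `e`, `f` are the numbers of components, vertices, edges
and faces. -/
def EmbedsOn {V : Type*} (h : ℕ) (G : SimpleGraph V) : Prop :=
  ∃ σ : Equiv.Perm G.Dart, IsRotation G σ ∧
    2 * (Nat.card G.ConnectedComponent : ℤ) - 2 * (h : ℤ) ≤
      (Nat.card V : ℤ) - (G.edgeSet.ncard : ℤ) + (faces G σ : ℤ)

/-- The class of simple graphs on `n` labelled vertices with exactly `m` edges that are
embeddable on the orientable surface of genus `g`. -/
def surfaceGraphs (g n m : ℕ) : Set (SimpleGraph (Fin n)) :=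
  {G | G.edgeSet.ncard = m ∧ EmbedsOn g G}

/-- `G` has a largest component `C`, with strictly more vertices than every other component,
`C` is not embeddable on the orientable surface of genus `g - 1`, and every other component is
planar. -/
def GiantCarriesGenus {V : Type*} (g : ℕ) (G : SimpleGraph V) : Prop :=
  ∃ C : G.ConnectedComponent,
    (∀ D : G.ConnectedComponent, D ≠ C → D.supp.ncard < C.supp.ncard) ∧
    ¬ EmbedsOn (g - 1) (G.induce C.supp) ∧
    ∀ D : G.ConnectedComponent, D ≠ C → EmbedsOn 0 (G.induce D.supp)

theorem embedsOn_eq {V : Type*} {h : ℕ} {G : SimpleGraph V} :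
    EmbedsOn h G ↔ Helper98.Gn.EmbedsOn h G := Iff.rfl

theorem supp_eq {V : Type*} (G : SimpleGraph V) (v : V) :
    (G.connectedComponentMk v).supp = Helper98.Gn.cmp G v := by
  ext w
  rw [ConnectedComponent.mem_supp_iff, ConnectedComponent.eq]
  exact ⟨fun h => h.symm, fun h => h.symm⟩

theorem good_of {n : ℕ} {g : ℕ} {G : SimpleGraph (Fin n)} (h : Helper98.Gn.GoodE g G) :
    GiantCarriesGenus (g + 1) G := by
  obtain ⟨v, h1, h2, h3⟩ := h
  have key : ∀ w, G.connectedComponentMk w ≠ G.connectedComponentMk v → ¬ G.Reachable v w := by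
    intro w hw hr
    exact hw (ConnectedComponent.sound hr.symm)
  refine ⟨G.connectedComponentMk v, ?_, ?_, ?_⟩
  · intro D hD
    induction D using ConnectedComponent.ind with
    | h w =>
      rw [supp_eq, supp_eq]
      exact h1 w (key w hD)
  · rw [embedsOn_eq, Helper98.Gn.embedsOn_induce, supp_eq]
    exact h2
  · intro D hD
    induction D using ConnectedComponent.ind with
    | h w =>
      rw [embedsOn_eq, Helper98.Gn.embedsOn_induce, supp_eq]
      exact h3 w (key w hD)

/-- For every `g ≥ 1` and every sequence `m(n) = (1 + o(1)) n`, the proportion, among all simple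
graphs on `n` labelled vertices with `m(n)` edges embeddable on the orientable surface of genus
`g`, of those whose largest component is not embeddable on the surface of genus `g - 1` and all
of whose other components are planar, tends to `1`. -/
theorem result (g : ℕ) (hg : 1 ≤ g) (m : ℕ → ℕ)
    (hm : Tendsto (fun n : ℕ => (m n : ℝ) / (n : ℝ)) atTop (𝓝 1)) :
    Tendsto (fun n : ℕ =>
      ({G ∈ surfaceGraphs g n (m n) | GiantCarriesGenus g G}.ncard : ℝ) /
        ((surfaceGraphs g n (m n)).ncard : ℝ)) atTop (𝓝 1) := by
  classical
  obtain ⟨k, rfl⟩ : ∃ k, g = k + 1 := ⟨g - 1, by omega⟩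
  have hcrit : Helper98.Gn.Crit m := hm
  have hclass : ∀ n, surfaceGraphs (k + 1) n (m n) =
      (Helper98.Gn.ClF (Fin n) (k + 1) (m n) : Set (SimpleGraph (Fin n))) := by
    intro n
    ext G
    rw [Finset.mem_coe, Helper98.Gn.mem_ClF]
    change G.edgeSet.ncard = m n ∧ EmbedsOn (k + 1) G ↔ _
    rw [embedsOn_eq, Helper98.Gn.embedsOn_iff]
  rw [Metric.tendsto_nhds]
  intro ε hε
  filter_upwards [Helper98.Gn.good_rare hcrit k (ε / 2) (by linarith),
    hcrit.lower (k + 1) (δ := 1 / 2) (by norm_num) (by norm_num)] with n h1 h2
  obtain ⟨K, _, _, hK⟩ := h2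
  set A := Helper98.Gn.ClF (Fin n) (k + 1) (m n) with hA
  have hpos : 0 < A.card := lt_of_lt_of_le (Nat.factorial_pos _) hK
  have hpos' : (0 : ℝ) < A.card := by exact_mod_cast hpos
  have hc : (surfaceGraphs (k + 1) n (m n)).ncard = A.card := by
    rw [hclass, Set.ncard_coe_finset]
  have hle : {G ∈ surfaceGraphs (k + 1) n (m n) | GiantCarriesGenus (k + 1) G}.ncard ≤ A.card := by
    rw [← hc]
    exact Set.ncard_le_ncard (fun G hG => hG.1) (Set.toFinite _)
  have hge : A.card ≤ {G ∈ surfaceGraphs (k + 1) n (m n) | GiantCarriesGenus (k + 1) G}.ncard +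
      (A.filter (fun G => ¬ Helper98.Gn.GoodE k G)).card := by
    rw [← Set.ncard_coe_finset A, ← Set.ncard_coe_finset (A.filter _)]
    refine le_trans (Set.ncard_le_ncard ?_ (Set.toFinite _)) (Set.ncard_union_le _ _)
    intro G hG
    by_cases hgood : Helper98.Gn.GoodE k G
    · left
      exact ⟨by rw [hclass]; exact hG, good_of hgood⟩
    · right
      rw [Finset.mem_coe, Finset.mem_filter]
      exact ⟨hG, hgood⟩
  rw [hc]
  set x := {G ∈ surfaceGraphs (k + 1) n (m n) | GiantCarriesGenus (k + 1) G}.ncard with hx
  have hle' : (x : ℝ) ≤ A.card := by exact_mod_cast hle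
  have hge' : (A.card : ℝ) ≤ x + ((A.filter (fun G => ¬ Helper98.Gn.GoodE k G)).card : ℝ) := by
    exact_mod_cast hge
  have h3 : ((A.filter (fun G => ¬ Helper98.Gn.GoodE k G)).card : ℝ) ≤ ε / 2 * A.card := by
    convert h1
  rw [Real.dist_eq, abs_lt]
  constructor
  · have h4 : 1 - ε / 2 ≤ (x : ℝ) / A.card := by
      rw [le_div_iff₀ hpos']
      linarith
    linarith
  · have h4 : (x : ℝ) / A.card ≤ 1 := by
      rw [div_le_one hpos']
      exact hle'
    linarith

end Pool.Agent.Results.MP_4329f8_pr.GenusOfGiant
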